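import Mathlib

/-!
# The top of a finitely generated right ordered group with `g < g ^ 2 * f` for positive `f, g`
-/

set_option autoImplicit false

namespace Pool.Agent.CRZ

universe u

section arch

variable {Q : Type u} [Group Q] [LinearOrder Q]

lemma pow_lt_pow_of_one_lt (hr : ∀ a b c : Q, a < b → a * c < b * c) {g : Q} (hg : 1 < g)
    {m n : ℕ} (h : m < n) : g ^ m < g ^ n := by
  have step : ∀ k : ℕ, g ^ k < g ^ (k + 1) := by
    intro k
    have := hr 1 g (g ^ k) hg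
    rwa [one_mul, ← pow_succ'] at this
  exact strictMono_nat_of_lt_succ step h

lemma pow_le_pow_of_one_lt (hr : ∀ a b c : Q, a < b → a * c < b * c) {g : Q} (hg : 1 < g)
    {m n : ℕ} (h : m ≤ n) : g ^ m ≤ g ^ n := by
  rcases h.eq_or_lt with h | h
  · rw [h]
  · exact (pow_lt_pow_of_one_lt hr hg h).le

lemma le_right (hr : ∀ a b c : Q, a < b → a * c < b * c) {a b : Q} (c : Q) (h : a ≤ b) :
    a * c ≤ b * c := by
  rcases h.eq_or_lt with h | h
  · rw [h]
  · exact (hr a b c h).le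

/-- Archimedean two-sided ordered groups are commutative. -/
lemma comm_of_arch (hr : ∀ a b c : Q, a < b → a * c < b * c)
    (hl : ∀ a b c : Q, a < b → c * a < c * b)
    (ha : ∀ x : Q, 1 < x → ∀ y, ∃ n : ℕ, y ≤ x ^ n) (a b : Q) : a * b = b * a := by
  have lel : ∀ {a b : Q} (c : Q), a ≤ b → c * a ≤ c * b := by
    intro a b c h
    rcases h.eq_or_lt with h | h
    · rw [h]
    · exact (hl a b c h).le
  -- the floor
  have floor : ∀ d : Q, 1 < d → ∀ y : Q, 1 < y → ∃ n : ℕ, d ^ n ≤ y ∧ y < d ^ (n + 1) := by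
    classical
    intro d hd y hy
    have hex : ∃ n : ℕ, y < d ^ n := by
      obtain ⟨n, hn⟩ := ha d hd y
      exact ⟨n + 1, hn.trans_lt (pow_lt_pow_of_one_lt hr hd (Nat.lt_succ_self n))⟩
    have h0 : Nat.find hex ≠ 0 := by
      intro h
      have h1 := Nat.find_spec hex
      rw [h, pow_zero] at h1
      exact absurd hy (not_lt.2 h1.le)
    obtain ⟨n, hn⟩ := Nat.exists_eq_succ_of_ne_zero h0
    refine ⟨n, ?_, ?_⟩
    · have h2 := Nat.find_min hex (m := n) (by omega)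
      exact not_lt.1 h2
    · have h1 := Nat.find_spec hex
      rwa [hn] at h1
  -- positive elements commute
  have pos : ∀ a b : Q, 1 < a → 1 < b → a * b ≤ b * a := by
    intro a b ha1 hb1
    by_contra hcon
    rw [not_le] at hcon
    set c : Q := a * b * (b * a)⁻¹ with hc
    have hc1 : 1 < c := by
      have := hr _ _ (b * a)⁻¹ hcon
      rwa [mul_inv_cancel] at this
    by_cases hmin : ∃ e : Q, 1 < e ∧ ∀ y, 1 < y → e ≤ y
    · obtain ⟨e, he, hmin⟩ := hmin
      have cyc : ∀ y : Q, 1 < y → ∃ n : ℕ, y = e ^ n := by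
        intro y hy
        obtain ⟨n, h1, h2⟩ := floor e he y hy
        refine ⟨n, ?_⟩
        by_contra hne
        have h3 : e ^ n < y := lt_of_le_of_ne h1 (fun h => hne h.symm)
        have h4 := hl _ _ (e ^ n)⁻¹ h3
        rw [inv_mul_cancel] at h4
        have h5 := hmin _ h4
        have h6 := hl _ _ (e ^ n)⁻¹ h2
        rw [pow_succ, inv_mul_cancel_left] at h6
        exact absurd h5 (not_le.2 h6)
      obtain ⟨n, hn⟩ := cyc a ha1
      obtain ⟨m, hm⟩ := cyc b hb1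
      rw [hn, hm, ← pow_add, ← pow_add, Nat.add_comm] at hcon
      exact lt_irrefl _ hcon
    · push Not at hmin
      obtain ⟨d1, hd1, hd1c⟩ := hmin c hc1
      obtain ⟨d, hd, hdc⟩ : ∃ d : Q, 1 < d ∧ d * d ≤ c := by
        by_cases h : d1 * d1 ≤ c
        · exact ⟨d1, hd1, h⟩
        · rw [not_le] at h
          refine ⟨d1⁻¹ * c, ?_, ?_⟩
          · have := hl _ _ d1⁻¹ hd1c
            rwa [inv_mul_cancel] at this
          · have h1 := hl _ _ d1⁻¹ h
            rw [inv_mul_cancel_left] at h1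
            have h2 := hr _ _ (d1⁻¹ * c) h1
            rw [mul_inv_cancel_left] at h2
            exact h2.le
      obtain ⟨n, hn1, hn2⟩ := floor d hd a ha1
      obtain ⟨m, hm1, hm2⟩ := floor d hd b hb1
      have h1 : a * b < d ^ (n + 1) * d ^ (m + 1) :=
        (hr _ _ _ hn2).trans (hl _ _ _ hm2)
      have h2 : d ^ m * d ^ n ≤ b * a := (le_right hr _ hm1).trans (lel _ hn1)
      have h3 : c * (d ^ m * d ^ n) ≤ a * b := by
        have := lel c h2
        rwa [hc, inv_mul_cancel_right] at this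
      have h4 : d * d * (d ^ m * d ^ n) ≤ c * (d ^ m * d ^ n) := le_right hr _ hdc
      have h5 : d * d * (d ^ m * d ^ n) = d ^ (n + 1) * d ^ (m + 1) := by
        rw [← pow_add, ← pow_add, ← pow_two, ← pow_add]
        congr 1
        omega
      rw [h5] at h4
      exact absurd (h4.trans h3) (not_le.2 h1)
  have comm_pos : ∀ a b : Q, 1 < a → 1 < b → Commute a b := fun a b h1 h2 =>
    le_antisymm (pos a b h1 h2) (pos b a h2 h1)
  have inv_pos : ∀ x : Q, x < 1 → 1 < x⁻¹ := by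
    intro x hx
    have := hr _ _ x⁻¹ hx
    rwa [mul_inv_cancel, one_mul] at this
  have half : ∀ a b : Q, 1 < a → Commute a b := by
    intro a b ha1
    rcases lt_trichotomy b 1 with h | h | h
    · have := comm_pos a b⁻¹ ha1 (inv_pos b h)
      simpa using this.inv_right
    · rw [h]; exact Commute.one_right a
    · exact comm_pos a b ha1 h
  rcases lt_trichotomy a 1 with h | h | h
  · have := (half a⁻¹ b (inv_pos a h)).inv_left
    simpa using this.eq
  · rw [h, one_mul, mul_one]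
  · exact (half a b h).eq

open Classical in
/-- the order of a cone -/
@[reducible] noncomputable def ordOf {Q : Type u} [Group Q] (P : Set Q) (hmul : ∀ x ∈ P, ∀ y ∈ P, x * y ∈ P)
    (hone : (1 : Q) ∉ P) (htot : ∀ x : Q, x ≠ 1 → x ∈ P ∨ x⁻¹ ∈ P) : LinearOrder Q where
  le a b := a = b ∨ b * a⁻¹ ∈ P
  lt a b := b * a⁻¹ ∈ P
  le_refl a := Or.inl rfl
  le_trans := by
    rintro a b c (rfl | h1) (rfl | h2)
    · exact Or.inl rfl
    · exact Or.inr h2
    · exact Or.inr h1
    · right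
      have := hmul _ h2 _ h1
      rwa [mul_assoc, inv_mul_cancel_left] at this
  le_antisymm := by
    rintro a b (rfl | h1) h2
    · rfl
    · rcases h2 with rfl | h2
      · rfl
      · exfalso
        have := hmul _ h2 _ h1
        rw [mul_assoc, inv_mul_cancel_left, mul_inv_cancel] at this
        exact hone this
  le_total := by
    intro a b
    by_cases h : a = b
    · exact Or.inl (Or.inl h)
    · have hne : b * a⁻¹ ≠ 1 := fun h1 => h (mul_inv_eq_one.1 h1).symm
      rcases htot _ hne with h1 | h1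
      · exact Or.inl (Or.inr h1)
      · right; right
        simpa using h1
  toDecidableLE := Classical.decRel _
  lt_iff_le_not_ge := by
    intro a b
    constructor
    · intro h
      refine ⟨Or.inr h, ?_⟩
      rintro (rfl | h2)
      · rw [mul_inv_cancel] at h; exact hone h
      · have := hmul _ h2 _ h
        rw [mul_assoc, inv_mul_cancel_left, mul_inv_cancel] at this
        exact hone this
    · rintro ⟨h1 | h1, h2⟩
      · exact absurd (Or.inl h1.symm) h2
      · exact h1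

lemma comm_of_cone {Q : Type u} [Group Q] (P : Set Q) (hmul : ∀ x ∈ P, ∀ y ∈ P, x * y ∈ P)
    (hone : (1 : Q) ∉ P) (htot : ∀ x : Q, x ≠ 1 → x ∈ P ∨ x⁻¹ ∈ P)
    (hconj : ∀ x ∈ P, ∀ g, g * x * g⁻¹ ∈ P)
    (harch : ∀ x ∈ P, ∀ y, ∃ n : ℕ, y = x ^ n ∨ x ^ n * y⁻¹ ∈ P) (a b : Q) : a * b = b * a := by
  let _ := ordOf P hmul hone htot
  have hlt : ∀ x y : Q, x < y ↔ y * x⁻¹ ∈ P := fun _ _ => Iff.rfl
  refine comm_of_arch ?_ ?_ ?_ a b
  · intro a b c h
    rw [hlt] at h ⊢
    have e : b * c * (a * c)⁻¹ = b * a⁻¹ := by group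
    rwa [e]
  · intro a b c h
    rw [hlt] at h ⊢
    have e : c * b * (c * a)⁻¹ = c * (b * a⁻¹) * c⁻¹ := by group
    rw [e]
    exact hconj _ h c
  · intro x hx y
    rw [hlt, inv_one, mul_one] at hx
    exact harch x hx y

end arch

section top

variable {H : Type u} [Group H] [LinearOrder H]

/-- convex subgroups -/
def Cv (C : Subgroup H) : Prop := ∀ x ∈ C, ∀ y, 1 ≤ y → y ≤ x → y ∈ C

lemma inv_lt_one (hr : ∀ a b c : H, a < b → a * c < b * c) {x : H} (hx : 1 < x) : x⁻¹ < 1 := by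
  have := hr _ _ x⁻¹ hx
  rwa [mul_inv_cancel, one_mul] at this

lemma one_lt_inv_of (hr : ∀ a b c : H, a < b → a * c < b * c) {x : H} (hx : x < 1) :
    1 < x⁻¹ := by
  have := hr _ _ x⁻¹ hx
  rwa [mul_inv_cancel, one_mul] at this

/-- the uniform bound: `f < g` gives `g f < g ^ 3` -/
lemma cube (hr : ∀ a b c : H, a < b → a * c < b * c)
    (hN : ∀ f g : H, 1 < f → 1 < g → g < g ^ 2 * f) {f g : H} (hg : 1 < g) (h : f < g) :
    g * f < g ^ 3 := by
  have hc : 1 < g * f⁻¹ := by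
    have := hr _ _ f⁻¹ h
    rwa [mul_inv_cancel] at this
  have h1 := hN _ _ hc hg
  -- `g < g ^ 2 * (g * f⁻¹)`
  have h2 := hr _ _ (f) h1
  have e : g ^ 2 * (g * f⁻¹) * f = g ^ 3 := by group
  rwa [e] at h2

lemma cv_total (hr : ∀ a b c : H, a < b → a * c < b * c) {C D : Subgroup H} (hC : Cv C)
    (hD : Cv D) : C ≤ D ∨ D ≤ C := by
  by_cases h : C ≤ D
  · exact Or.inl h
  · right
    obtain ⟨x, hxC, hxD⟩ := SetLike.not_le_iff_exists.1 h
    obtain ⟨x, hx1, hxC, hxD⟩ : ∃ x : H, 1 < x ∧ x ∈ C ∧ x ∉ D := by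
      rcases lt_trichotomy x 1 with h1 | h1 | h1
      · exact ⟨x⁻¹, one_lt_inv_of hr h1, C.inv_mem hxC, fun h2 => hxD (by simpa using D.inv_mem h2)⟩
      · exact absurd D.one_mem (h1 ▸ hxD)
      · exact ⟨x, h1, hxC, hxD⟩
    have key : ∀ y ∈ D, 1 ≤ y → y ∈ C := by
      intro y hy h1
      rcases le_total y x with h2 | h2
      · exact hC x hxC y h1 h2
      · exact absurd (hD y hy x hx1.le h2) hxD
    intro y hy
    rcases le_total 1 y with h1 | h1
    · exact key y hy h1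
    · rcases h1.eq_or_lt with h1 | h1
      · rw [h1]; exact C.one_mem
      · have := key y⁻¹ (D.inv_mem hy) (one_lt_inv_of hr h1).le
        simpa using C.inv_mem this

/-- the convex subgroup generated by `g > 1` -/
def hul (hr : ∀ a b c : H, a < b → a * c < b * c)
    (hN : ∀ f g : H, 1 < f → 1 < g → g < g ^ 2 * f) (g : H) (hg : 1 < g) : Subgroup H where
  carrier := {x | ∃ n : ℕ, x < g ^ n ∧ x⁻¹ < g ^ n}
  one_mem' := ⟨1, by simpa using hg, by simpa using hg⟩
  inv_mem' := by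
    rintro x ⟨n, h1, h2⟩
    exact ⟨n, h2, by simpa using h1⟩
  mul_mem' := by
    have key : ∀ {x y : H} {n m : ℕ}, x < g ^ n → y < g ^ m → ∀ k : ℕ, n + m + 1 ≤ k →
        x * y < (g ^ k) ^ 3 := by
      intro x y n m hx hy k hk
      have hk1 : 1 < g ^ k := by
        have := pow_lt_pow_of_one_lt hr hg (m := 0) (n := k) (by omega)
        rwa [pow_zero] at this
      have h1 : x < g ^ k := hx.trans (pow_lt_pow_of_one_lt hr hg (by omega))
      have h2 : y < g ^ k := hy.trans (pow_lt_pow_of_one_lt hr hg (by omega))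
      exact (hr _ _ y h1).trans (cube hr hN hk1 h2)
    rintro x y ⟨n, h1, h2⟩ ⟨m, h3, h4⟩
    refine ⟨(n + m + 1) * 3, ?_, ?_⟩
    · have := key h1 h3 (n + m + 1) le_rfl
      rwa [← pow_mul] at this
    · have := key h4 h2 (n + m + 1) (by omega)
      rwa [← pow_mul, ← mul_inv_rev] at this

lemma cv_hul (hr : ∀ a b c : H, a < b → a * c < b * c)
    (hN : ∀ f g : H, 1 < f → 1 < g → g < g ^ 2 * f) {g : H} (hg : 1 < g) :
    Cv (hul hr hN g hg) := by
  rintro x ⟨n, h1, h2⟩ y hy1 hy2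
  have h3 : 1 < g ^ n := by
    rcases le_or_gt x 1 with h | h
    · have : y = 1 := le_antisymm (hy2.trans h) hy1
      have hx : x = 1 := le_antisymm h (this ▸ hy2)
      rwa [hx] at h1
    · exact h.trans h1
  refine ⟨n, hy2.trans_lt h1, ?_⟩
  rcases hy1.eq_or_lt with h | h
  · rw [← h, inv_one]; exact h3
  · exact (inv_lt_one hr h).trans h3

lemma mem_hul_self (hr : ∀ a b c : H, a < b → a * c < b * c)
    (hN : ∀ f g : H, 1 < f → 1 < g → g < g ^ 2 * f) {g : H} (hg : 1 < g) :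
    g ∈ hul hr hN g hg := by
  refine ⟨2, ?_, ?_⟩
  · have := pow_lt_pow_of_one_lt hr hg (m := 1) (n := 2) (by omega)
    rwa [pow_one] at this
  · refine (inv_lt_one hr hg).trans ?_
    have := pow_lt_pow_of_one_lt hr hg (m := 0) (n := 2) (by omega)
    rwa [pow_zero] at this

/-- The top convex subgroup of a finitely generated group: normal, with an abelian torsion-free
quotient, and containing every proper convex subgroup. -/
theorem exists_top (hr : ∀ a b c : H, a < b → a * c < b * c)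
    (hN : ∀ f g : H, 1 < f → 1 < g → g < g ^ 2 * f) (hfg : Group.FG H)
    {M : Subgroup H} (hM : Cv M) (hMt : M ≠ ⊤) :
    ∃ N : Subgroup H, N.Normal ∧ M ≤ N ∧ N ≠ ⊤ ∧ (∀ a b : H, a * b * (b * a)⁻¹ ∈ N) ∧
      ∀ (x : H) (k : ℕ), k ≠ 0 → x ^ k ∈ N → x ∈ N := by
  classical
  -- a generator that dominates
  obtain ⟨g₀, hg₀, htop⟩ : ∃ g₀ : H, ∃ h : 1 < g₀, hul hr hN g₀ h = ⊤ := by
    obtain ⟨X, hX⟩ := hfg.out
    obtain ⟨z, -, hz⟩ := SetLike.exists_of_lt (lt_top_iff_ne_top.2 hMt)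
    have hz1 : z ≠ 1 := fun h => hz (h ▸ M.one_mem)
    obtain ⟨z, hz1⟩ : ∃ z : H, 1 < z := by
      rcases lt_or_gt_of_ne hz1 with h | h
      · exact ⟨z⁻¹, one_lt_inv_of hr h⟩
      · exact ⟨z, h⟩
    let Y : Finset H := insert z (X ∪ X.image (·⁻¹))
    have hY : Y.Nonempty := ⟨z, Finset.mem_insert_self _ _⟩
    set g₀ := Y.max' hY with hg
    have hg₀ : 1 < g₀ := hz1.trans_le (Y.le_max' z (Finset.mem_insert_self _ _))
    refine ⟨g₀, hg₀, ?_⟩
    rw [eq_top_iff, ← hX, Subgroup.closure_le]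
    intro x hx
    have h2 : g₀ < g₀ ^ 2 := by
      have := pow_lt_pow_of_one_lt hr hg₀ (m := 1) (n := 2) (by omega)
      rwa [pow_one] at this
    refine ⟨2, (Y.le_max' x ?_).trans_lt h2, (Y.le_max' x⁻¹ ?_).trans_lt h2⟩
    · exact Finset.mem_insert_of_mem (Finset.mem_union_left _ hx)
    · exact Finset.mem_insert_of_mem (Finset.mem_union_right _ (Finset.mem_image_of_mem _ hx))
  have hnot : ∀ C : Subgroup H, Cv C → C ≠ ⊤ → g₀ ∉ C := by
    intro C hC hne hg
    refine hne (eq_top_iff.2 ?_)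
    rw [← htop]
    have key : ∀ x : H, 1 ≤ x → x ∈ hul hr hN g₀ hg₀ → x ∈ C := by
      rintro x h1 ⟨n, h2, -⟩
      exact hC _ (C.pow_mem hg n) x h1 h2.le
    intro x hx
    rcases le_total 1 x with h | h
    · exact key x h hx
    · rcases h.eq_or_lt with h | h
      · rw [h]; exact C.one_mem
      · have := key x⁻¹ (one_lt_inv_of hr h).le (Subgroup.inv_mem _ hx)
        simpa using C.inv_mem this
  -- the union of the proper convex subgroups
  let 𝒞 : Set (Subgroup H) := {C | Cv C ∧ g₀ ∉ C}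
  have hM𝒞 : M ∈ 𝒞 := ⟨hM, hnot M hM hMt⟩
  have hdir : DirectedOn (· ≤ ·) 𝒞 := by
    intro C hC D hD
    rcases cv_total hr hC.1 hD.1 with h | h
    · exact ⟨D, hD, h, le_rfl⟩
    · exact ⟨C, hC, le_rfl, h⟩
  set N : Subgroup H := sSup 𝒞 with hNdef
  have hmem : ∀ x, x ∈ N ↔ ∃ C ∈ 𝒞, x ∈ C := fun x =>
    Subgroup.mem_sSup_of_directedOn ⟨M, hM𝒞⟩ hdir
  have hNcv : Cv N := by
    intro x hx y h1 h2
    obtain ⟨C, hC, hx⟩ := (hmem x).1 hx
    exact (hmem y).2 ⟨C, hC, hC.1 x hx y h1 h2⟩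
  have hg₀N : g₀ ∉ N := by
    intro h
    obtain ⟨C, hC, hx⟩ := (hmem g₀).1 h
    exact hC.2 hx
  have hNt : N ≠ ⊤ := fun h => hg₀N (h ▸ Subgroup.mem_top _)
  -- archimedean property modulo `N`
  have arch : ∀ x : H, 1 < x → x ∉ N → ∀ y, ∃ n : ℕ, y < x ^ n := by
    intro x hx1 hxN y
    have h1 : hul hr hN x hx1 = ⊤ := by
      by_contra hne
      exact hxN ((hmem x).2 ⟨_, ⟨cv_hul hr hN hx1, hnot _ (cv_hul hr hN hx1) hne⟩,
        mem_hul_self hr hN hx1⟩)
    have h2 : y ∈ hul hr hN x hx1 := h1 ▸ Subgroup.mem_top y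
    obtain ⟨n, h3, -⟩ := h2
    exact ⟨n, h3⟩
  -- bounded powers are preserved by conjugation
  have bdd : ∀ x h : H, (∃ t, ∀ n : ℕ, x ^ n < t) → ∃ t, ∀ n : ℕ, (h * x * h⁻¹) ^ n < t := by
    rintro x h ⟨t, ht⟩
    set G := max (max t h) g₀ with hG
    have hG1 : 1 < G := hg₀.trans_le (le_max_right _ _)
    refine ⟨G ^ 3 * h⁻¹, fun n => ?_⟩
    have e : (h * x * h⁻¹) ^ n = h * x ^ n * h⁻¹ := by
      rw [conj_pow]
    rw [e]
    refine hr _ _ h⁻¹ ?_
    have h1 : h ≤ G := (le_max_right _ _).trans (le_max_left _ _)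
    have h2 : x ^ n < G := (ht n).trans_le ((le_max_left _ _).trans (le_max_left _ _))
    exact (le_right hr _ h1).trans_lt (cube hr hN hG1 h2)
  have bdd_neg : ∀ x : H, x < 1 → ∃ t, ∀ n : ℕ, x ^ n < t := by
    intro x hx
    refine ⟨g₀, fun n => ?_⟩
    refine lt_of_le_of_lt ?_ hg₀
    induction n with
    | zero => simp
    | succ n ih =>
      rw [pow_succ]
      exact (le_right hr x ih).trans (by rw [one_mul]; exact hx.le)
  have bdd_mem : ∀ x ∈ N, ∃ t, ∀ n : ℕ, x ^ n < t := by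
    intro x hx
    refine ⟨g₀, fun n => ?_⟩
    by_contra hcon
    rw [not_lt] at hcon
    exact hg₀N (hNcv _ (N.pow_mem hx n) _ hg₀.le hcon)
  have nbdd : ∀ x : H, 1 < x → x ∉ N → ¬ ∃ t, ∀ n : ℕ, x ^ n < t := by
    rintro x h1 h2 ⟨t, ht⟩
    obtain ⟨n, hn⟩ := arch x h1 h2 t
    exact lt_irrefl _ (hn.trans (ht n))
  have hnormal : N.Normal := by
    refine ⟨fun x hx h => ?_⟩
    by_contra hcon
    rcases lt_trichotomy (h * x * h⁻¹) 1 with h1 | h1 | h1
    · have h2 : (h * x * h⁻¹)⁻¹ = h * x⁻¹ * h⁻¹ := by group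
      have h3 : 1 < h * x⁻¹ * h⁻¹ := h2 ▸ one_lt_inv_of hr h1
      have h4 : h * x⁻¹ * h⁻¹ ∉ N := by
        rw [← h2]
        intro h5
        exact hcon (by simpa using N.inv_mem h5)
      exact nbdd _ h3 h4 (bdd _ h (bdd_mem _ (N.inv_mem hx)))
    · exact hcon (h1 ▸ N.one_mem)
    · exact nbdd _ h1 hcon (bdd _ h (bdd_mem _ hx))
  have hconj : ∀ x h : H, 1 < x → x ∉ N → 1 < h * x * h⁻¹ := by
    intro x h h1 h2
    have h3 : h * x * h⁻¹ ∉ N := by
      intro h4
      have := hnormal.conj_mem _ h4 h⁻¹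
      apply h2
      have e : h⁻¹ * (h * x * h⁻¹) * h⁻¹⁻¹ = x := by group
      rwa [e] at this
    by_contra hcon
    rw [not_lt] at hcon
    rcases hcon.eq_or_lt with h4 | h4
    · exact h3 (h4 ▸ N.one_mem)
    · have h5 := bdd _ h⁻¹ (bdd_neg _ h4)
      have e : h⁻¹ * (h * x * h⁻¹) * h⁻¹⁻¹ = x := by group
      rw [e] at h5
      exact nbdd x h1 h2 h5
  have hmulN : ∀ x y : H, 1 < x → 1 < y → y ∉ N → x * y ∉ N := by
    intro x y h1 h2 h3 h4
    have h5 := hr _ _ y h1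
    rw [one_mul] at h5
    exact h3 (hNcv _ h4 y h2.le h5.le)
  have hmk : ∀ x : H, (QuotientGroup.mk' N x = 1) ↔ x ∈ N := fun x =>
    QuotientGroup.eq_one_iff x
  have hcomm := comm_of_cone (Q := H ⧸ N) {q | ∃ x : H, QuotientGroup.mk' N x = q ∧ 1 < x ∧ x ∉ N}
    (by
      rintro _ ⟨x, rfl, hx1, hx2⟩ _ ⟨y, rfl, hy1, hy2⟩
      refine ⟨x * y, map_mul _ _ _, ?_, hmulN x y hx1 hy1 hy2⟩
      have h5 := hr _ _ y hx1
      rw [one_mul] at h5
      exact hy1.trans h5)
    (by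
      rintro ⟨x, hx, -, hx2⟩
      exact hx2 ((hmk x).1 hx))
    (by
      intro q hq
      obtain ⟨x, rfl⟩ := QuotientGroup.mk'_surjective N q
      have hxN : x ∉ N := fun h => hq ((hmk x).2 h)
      rcases lt_trichotomy x 1 with h | h | h
      · right
        exact ⟨x⁻¹, map_inv _ _, one_lt_inv_of hr h, fun h1 => hxN (by simpa using N.inv_mem h1)⟩
      · exact absurd (h ▸ N.one_mem) hxN
      · exact Or.inl ⟨x, rfl, h, hxN⟩)
    (by
      rintro _ ⟨x, rfl, hx1, hx2⟩ q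
      obtain ⟨h, rfl⟩ := QuotientGroup.mk'_surjective N q
      refine ⟨h * x * h⁻¹, by simp, hconj x h hx1 hx2, ?_⟩
      intro h4
      have := hnormal.conj_mem _ h4 h⁻¹
      apply hx2
      have e : h⁻¹ * (h * x * h⁻¹) * h⁻¹⁻¹ = x := by group
      rwa [e] at this)
    (by
      rintro _ ⟨x, rfl, hx1, hx2⟩ q
      obtain ⟨y, rfl⟩ := QuotientGroup.mk'_surjective N q
      obtain ⟨n, hn⟩ := arch x hx1 hx2 y
      refine ⟨n, ?_⟩
      have h6 := hr _ _ y⁻¹ hn
      rw [mul_inv_cancel] at h6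
      by_cases h7 : x ^ n * y⁻¹ ∈ N
      · left
        have h8 := (hmk _).2 h7
        rw [map_mul, map_inv, map_pow, mul_inv_eq_one] at h8
        exact h8.symm
      · right
        exact ⟨x ^ n * y⁻¹, by simp, h6, h7⟩)
  refine ⟨N, hnormal, ?_, hNt, ?_, ?_⟩
  · intro x hx
    exact (hmem x).2 ⟨M, hM𝒞, hx⟩
  · intro a b
    rw [← hmk, map_mul, map_inv, map_mul, map_mul,
      hcomm (QuotientGroup.mk' N a) (QuotientGroup.mk' N b), mul_inv_cancel]
  · intro x k hk hx
    by_contra hxN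
    have key : ∀ z : H, 1 < z → z ∉ N → z ^ k ∉ N := by
      intro z hz hzN h
      have h1 : z ≤ z ^ k := by
        have := pow_le_pow_of_one_lt hr hz (m := 1) (n := k) (by omega)
        rwa [pow_one] at this
      exact hzN (hNcv _ h z hz.le h1)
    rcases lt_trichotomy x 1 with h | h | h
    · refine key x⁻¹ (one_lt_inv_of hr h) (fun h1 => hxN (by simpa using N.inv_mem h1)) ?_
      rw [inv_pow]
      exact N.inv_mem hx
    · exact hxN (h ▸ N.one_mem)
    · exact key x h hxN hx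

end top

end Pool.Agent.CRZ
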